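import Mathlib

/-!
# Block P3: the potential function of the coins

`x (n, B)` is the (bound of the) probability that a trial of the block `B` of the level `n` fails. The
number `QQ x n B` bounds the probability that `B` becomes bad: a trial of `B` fails or at least
`J + 1` of the subblocks `ch n B` of `B` are bad. It is a polynomial with nonnegative coefficients, of
degree one in each `x (n, B)`. No probability space is needed.
-/

set_option autoImplicit false
set_option linter.unusedSectionVars false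

open scoped BigOperators

noncomputable section

namespace Pool.Agent.ANP.H72

variable {Y : Type} [DecidableEq Y]

/-- the bound of the probability that the block `B` of the level `n` becomes bad -/
def QQ (ch : ℕ → Y → Finset Y) (J : ℕ) (x : ℕ × Y → ℝ) : ℕ → Y → ℝ
  | 0, B => x (0, B)
  | n + 1, B => x (n + 1, B) +
      ∑ S ∈ (ch n B).powersetCard (J + 1), ∏ b ∈ S, QQ ch J x n b

/-- the potential function: `near n` are the blocks of the level `n` which matter, `n < N` -/
def Phi (ch : ℕ → Y → Finset Y) (J N : ℕ) (near : ℕ → Finset Y) (x : ℕ × Y → ℝ) : ℝ :=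
  ∑ n ∈ Finset.range N, ∑ B ∈ near n, QQ ch J x n B

/-- a block is a subblock of at most one block -/
def Tree (ch : ℕ → Y → Finset Y) : Prop :=
  ∀ n B B' b, b ∈ ch n B → b ∈ ch n B' → B = B'

variable {ch : ℕ → Y → Finset Y} {J : ℕ}

theorem qq_zero (x : ℕ × Y → ℝ) (B : Y) : QQ ch J x 0 B = x (0, B) := rfl

theorem qq_succ (x : ℕ × Y → ℝ) (n : ℕ) (B : Y) : QQ ch J x (n + 1) B = x (n + 1, B) +
    ∑ S ∈ (ch n B).powersetCard (J + 1), ∏ b ∈ S, QQ ch J x n b := rfl

theorem qq_nonneg {x : ℕ × Y → ℝ} (h0 : ∀ c, 0 ≤ x c) : ∀ n B, 0 ≤ QQ ch J x n B := by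
  intro n
  induction n with
  | zero => exact fun B => h0 _
  | succ n ih =>
    intro B
    rw [qq_succ]
    exact add_nonneg (h0 _) (Finset.sum_nonneg fun S _ => Finset.prod_nonneg fun b _ => ih b)

theorem qq_mono {x y : ℕ × Y → ℝ} (h0 : ∀ c, 0 ≤ x c) (h : ∀ c, x c ≤ y c) :
    ∀ n B, QQ ch J x n B ≤ QQ ch J y n B := by
  intro n
  induction n with
  | zero => exact fun B => h _
  | succ n ih =>
    intro B
    rw [qq_succ, qq_succ]
    refine add_le_add (h _) (Finset.sum_le_sum fun S _ => ?_)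
    exact Finset.prod_le_prod (fun b _ => qq_nonneg h0 n b) fun b _ => ih b

theorem phi_nonneg {x : ℕ × Y → ℝ} (h0 : ∀ c, 0 ≤ x c) (N : ℕ) (near : ℕ → Finset Y) :
    0 ≤ Phi ch J N near x :=
  Finset.sum_nonneg fun n _ => Finset.sum_nonneg fun B _ => qq_nonneg h0 n B

theorem phi_mono {x y : ℕ × Y → ℝ} (h0 : ∀ c, 0 ≤ x c) (h : ∀ c, x c ≤ y c) (N : ℕ)
    (near : ℕ → Finset Y) : Phi ch J N near x ≤ Phi ch J N near y :=
  Finset.sum_le_sum fun n _ => Finset.sum_le_sum fun B _ => qq_mono h0 h n B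

/-- a block with a failed trial -/
theorem qq_one_of_coin {x : ℕ × Y → ℝ} (h0 : ∀ c, 0 ≤ x c) {n : ℕ} {B : Y}
    (h : 1 ≤ x (n, B)) : 1 ≤ QQ ch J x n B := by
  cases n with
  | zero => exact h
  | succ n =>
    rw [qq_succ]
    have h1 : 0 ≤ ∑ S ∈ (ch n B).powersetCard (J + 1), ∏ b ∈ S, QQ ch J x n b :=
      Finset.sum_nonneg fun S _ => Finset.prod_nonneg fun b _ => qq_nonneg h0 n b
    linarith

/-- a block with `J + 1` bad subblocks -/
theorem qq_one_of_children {x : ℕ × Y → ℝ} (h0 : ∀ c, 0 ≤ x c) {n : ℕ} {B : Y} {T : Finset Y}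
    (hT : T ⊆ ch n B) (hc : J + 1 ≤ T.card) (h : ∀ b ∈ T, 1 ≤ QQ ch J x n b) :
    1 ≤ QQ ch J x (n + 1) B := by
  obtain ⟨S, hS, hSc⟩ := Finset.exists_subset_card_eq hc
  have h1 : 1 ≤ ∏ b ∈ S, QQ ch J x n b := by
    rw [← Finset.prod_const_one (s := S)]
    exact Finset.prod_le_prod (fun b _ => zero_le_one) fun b hb => h b (hS hb)
  have h2 : ∏ b ∈ S, QQ ch J x n b ≤
      ∑ S ∈ (ch n B).powersetCard (J + 1), ∏ b ∈ S, QQ ch J x n b :=
    Finset.single_le_sum (f := fun S => ∏ b ∈ S, QQ ch J x n b)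
      (fun S _ => Finset.prod_nonneg fun b _ => qq_nonneg h0 n b)
      (Finset.mem_powersetCard.2 ⟨hS.trans hT, hSc⟩)
  rw [qq_succ]
  have := h0 (n + 1, B)
  linarith

theorem phi_one {x : ℕ × Y → ℝ} (h0 : ∀ c, 0 ≤ x c) {N : ℕ} {near : ℕ → Finset Y} {n : ℕ}
    (hn : n < N) {B : Y} (hB : B ∈ near n) (h : 1 ≤ QQ ch J x n B) :
    1 ≤ Phi ch J N near x := by
  have h1 : QQ ch J x n B ≤ ∑ B ∈ near n, QQ ch J x n B :=
    Finset.single_le_sum (f := fun B => QQ ch J x n B) (fun B _ => qq_nonneg h0 n B) hB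
  have h2 : ∑ B ∈ near n, QQ ch J x n B ≤ Phi ch J N near x :=
    Finset.single_le_sum (f := fun n => ∑ B ∈ near n, QQ ch J x n B)
      (fun n _ => Finset.sum_nonneg fun B _ => qq_nonneg h0 n B) (Finset.mem_range.2 hn)
  linarith

/-! ### the dependence on one coin -/

/-- a product with at most one factor which is not constant -/
theorem prod_affine {A D : Y → ℝ} (hA : ∀ b, 0 ≤ A b) (hD : ∀ b, 0 ≤ D b)
    (h1 : ∀ b b', D b ≠ 0 → D b' ≠ 0 → b = b') (S : Finset Y) :
    ∃ a e : ℝ, 0 ≤ a ∧ 0 ≤ e ∧ (∀ t : ℝ, ∏ b ∈ S, (A b + D b * t) = a + e * t) ∧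
      (e ≠ 0 → ∃ b ∈ S, D b ≠ 0) := by
  by_cases h : ∃ b ∈ S, D b ≠ 0
  · obtain ⟨b₀, hb₀, hD0⟩ := h
    refine ⟨A b₀ * ∏ b ∈ S.erase b₀, A b, D b₀ * ∏ b ∈ S.erase b₀, A b,
      mul_nonneg (hA _) (Finset.prod_nonneg fun b _ => hA b),
      mul_nonneg (hD _) (Finset.prod_nonneg fun b _ => hA b), ?_, fun _ => ⟨b₀, hb₀, hD0⟩⟩
    intro t
    rw [← Finset.mul_prod_erase S _ hb₀]
    have h2 : ∏ b ∈ S.erase b₀, (A b + D b * t) = ∏ b ∈ S.erase b₀, A b := by
      refine Finset.prod_congr rfl fun b hb => ?_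
      have h3 : D b = 0 := by
        by_contra h4
        exact (Finset.mem_erase.1 hb).1 (h1 b b₀ h4 hD0)
      rw [h3, zero_mul, add_zero]
    rw [h2]
    ring
  · push Not at h
    refine ⟨∏ b ∈ S, A b, 0, Finset.prod_nonneg fun b _ => hA b, le_rfl, ?_,
      fun h2 => absurd rfl h2⟩
    intro t
    rw [zero_mul, add_zero]
    refine Finset.prod_congr rfl fun b hb => ?_
    rw [h b hb, zero_mul, add_zero]

theorem qq_affine (hT : Tree ch) {x : ℕ × Y → ℝ} (h0 : ∀ c, 0 ≤ x c) (m : ℕ) (C : Y) :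
    ∀ n, ∃ A D : Y → ℝ, (∀ b, 0 ≤ A b) ∧ (∀ b, 0 ≤ D b) ∧
      (∀ b (t : ℝ), QQ ch J (Function.update x (m, C) t) n b = A b + D b * t) ∧
      (n < m → ∀ b, D b = 0) ∧ (n = m → ∀ b, D b ≠ 0 → b = C) ∧
      (∀ b b', D b ≠ 0 → D b' ≠ 0 → b = b') := by
  classical
  have hown : ∀ n b (t : ℝ), Function.update x (m, C) t (n, b) =
      (if n = m ∧ b = C then 0 else x (n, b)) + (if n = m ∧ b = C then 1 else 0) * t := by
    intro n b t
    by_cases h : n = m ∧ b = C
    · rw [if_pos h, if_pos h, h.1, h.2, Function.update_self]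
      ring
    · rw [if_neg h, if_neg h, Function.update_of_ne]
      · ring
      · intro h2
        exact h ⟨congrArg Prod.fst h2, congrArg Prod.snd h2⟩
  intro n
  induction n with
  | zero =>
    refine ⟨fun b => if 0 = m ∧ b = C then 0 else x (0, b), fun b => if 0 = m ∧ b = C then 1 else 0,
      ?_, ?_, ?_, ?_, ?_, ?_⟩
    · intro b
      simp only
      split_ifs
      · exact le_rfl
      · exact h0 _
    · intro b
      simp only
      split_ifs
      · exact zero_le_one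
      · exact le_rfl
    · intro b t
      rw [qq_zero]
      exact hown 0 b t
    · intro hm b
      exact if_neg (fun h => by omega)
    · intro _ b hb
      simp only [ne_eq, ite_eq_right_iff, not_forall] at hb
      obtain ⟨h1, -⟩ := hb
      exact h1.2
    · intro b b' hb hb'
      simp only [ne_eq, ite_eq_right_iff, not_forall] at hb hb'
      obtain ⟨h1, -⟩ := hb
      obtain ⟨h2, -⟩ := hb'
      rw [h1.2, h2.2]
  | succ n ih =>
    obtain ⟨A, D, hA, hD, hf, hlt, heq, huni⟩ := ih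
    choose a e ha he hae hsup using fun S : Finset Y => prod_affine hA hD huni S
    refine ⟨fun b => (if n + 1 = m ∧ b = C then 0 else x (n + 1, b)) +
      ∑ S ∈ (ch n b).powersetCard (J + 1), a S, fun b => (if n + 1 = m ∧ b = C then 1 else 0) +
      ∑ S ∈ (ch n b).powersetCard (J + 1), e S, ?_, ?_, ?_, ?_⟩
    · intro b
      refine add_nonneg ?_ (Finset.sum_nonneg fun S _ => ha S)
      split_ifs
      · exact le_rfl
      · exact h0 _
    · intro b
      refine add_nonneg ?_ (Finset.sum_nonneg fun S _ => he S)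
      split_ifs
      · exact zero_le_one
      · exact le_rfl
    · intro b t
      rw [qq_succ, hown]
      have h1 : ∑ S ∈ (ch n b).powersetCard (J + 1),
          ∏ b ∈ S, QQ ch J (Function.update x (m, C) t) n b =
          ∑ S ∈ (ch n b).powersetCard (J + 1), a S +
            (∑ S ∈ (ch n b).powersetCard (J + 1), e S) * t := by
        rw [Finset.sum_mul, ← Finset.sum_add_distrib]
        refine Finset.sum_congr rfl fun S _ => ?_
        rw [← hae S t]
        exact Finset.prod_congr rfl fun b _ => hf b t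
      rw [h1]
      ring
    -- the support
    have key : ∀ b, ((if n + 1 = m ∧ b = C then (1 : ℝ) else 0) +
        ∑ S ∈ (ch n b).powersetCard (J + 1), e S) ≠ 0 →
        (n + 1 = m ∧ b = C) ∨ ∃ b' ∈ ch n b, D b' ≠ 0 := by
      intro b hb
      by_contra hcon
      push Not at hcon
      apply hb
      rw [if_neg (fun h => hcon.1 h.1 h.2), zero_add]
      refine Finset.sum_eq_zero fun S hS => ?_
      by_contra h2
      obtain ⟨b', hb', hD'⟩ := hsup S h2
      exact hD' (hcon.2 b' ((Finset.mem_powersetCard.1 hS).1 hb'))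
    refine ⟨?_, ?_, ?_⟩
    · intro hm b
      by_contra hb
      rcases key b hb with h1 | ⟨b', -, hD'⟩
      · omega
      · exact hD' (hlt (by omega) b')
    · intro hm b hb
      rcases key b hb with h1 | ⟨b', -, hD'⟩
      · exact h1.2
      · exact absurd (hlt (by omega) b') hD'
    · intro b b' hb hb'
      rcases key b hb with h1 | ⟨c, hc, hDc⟩
      · rcases key b' hb' with h2 | ⟨c', -, hDc'⟩
        · rw [h1.2, h2.2]
        · exact absurd (hlt (by omega) c') hDc'
      · rcases key b' hb' with h2 | ⟨c', hc', hDc'⟩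
        · exact absurd (hlt (by omega) c) hDc
        · have h3 := huni c c' hDc hDc'
          subst h3
          exact hT n b b' c hc hc'

theorem phi_affine (hT : Tree ch) {x : ℕ × Y → ℝ} (h0 : ∀ c, 0 ≤ x c) (N : ℕ)
    (near : ℕ → Finset Y) (c : ℕ × Y) : ∃ A D : ℝ, 0 ≤ A ∧ 0 ≤ D ∧
      ∀ t : ℝ, Phi ch J N near (Function.update x c t) = A + D * t := by
  obtain ⟨m, C⟩ := c
  choose A D hA hD hf _ _ _ using qq_affine (J := J) hT h0 m C
  refine ⟨∑ n ∈ Finset.range N, ∑ B ∈ near n, A n B, ∑ n ∈ Finset.range N, ∑ B ∈ near n, D n B,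
    Finset.sum_nonneg fun n _ => Finset.sum_nonneg fun B _ => hA n B,
    Finset.sum_nonneg fun n _ => Finset.sum_nonneg fun B _ => hD n B, ?_⟩
  intro t
  unfold Phi
  simp only [hf, Finset.sum_add_distrib, Finset.sum_mul]

/-- one trial of the block `c`, which fails with probability at most `p ≤ x c` -/
theorem coin_step (hT : Tree ch) {x : ℕ × Y → ℝ} (h0 : ∀ c, 0 ≤ x c) (N : ℕ)
    (near : ℕ → Finset Y) (c : ℕ × Y) {p : ℝ} (hp : 0 ≤ p) (hpx : p ≤ x c) :
    (1 - p) * Phi ch J N near (Function.update x c (x c - p)) +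
      p * Phi ch J N near (Function.update x c 1) ≤ Phi ch J N near x := by
  obtain ⟨A, D, hA, hD, h⟩ := phi_affine (J := J) hT h0 N near c
  have h1 := h (x c)
  rw [Function.update_eq_self] at h1
  rw [h, h, h1]
  have h2 : 0 ≤ D * (p * (x c - p)) := mul_nonneg hD (mul_nonneg hp (by linarith))
  nlinarith

/-! ### the initial value -/

theorem qq_start {x : ℕ × Y → ℝ} (h0 : ∀ c, 0 ≤ x c) {t q : ℕ → ℝ} {K : ℕ → ℕ}
    (hx : ∀ n B, x (n, B) ≤ t n) (hK : ∀ n B, (ch n B).card ≤ K n) (hq0 : t 0 ≤ q 0)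
    (hq : ∀ n, t (n + 1) + ((K n : ℝ) * q n) ^ (J + 1) ≤ q (n + 1)) :
    ∀ n B, QQ ch J x n B ≤ q n := by
  intro n
  induction n with
  | zero => exact fun B => (hx 0 B).trans hq0
  | succ n ih =>
    intro B
    rw [qq_succ]
    refine le_trans (add_le_add (hx _ _) ?_) (hq n)
    have hqn : 0 ≤ q n := (qq_nonneg h0 n B).trans (ih B)
    calc ∑ S ∈ (ch n B).powersetCard (J + 1), ∏ b ∈ S, QQ ch J x n b ≤
        ∑ S ∈ (ch n B).powersetCard (J + 1), q n ^ (J + 1) := by
          refine Finset.sum_le_sum fun S hS => ?_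
          rw [← (Finset.mem_powersetCard.1 hS).2, ← Finset.prod_const]
          exact Finset.prod_le_prod (fun b _ => qq_nonneg h0 n b) fun b _ => ih b
      _ = ((ch n B).card.choose (J + 1) : ℝ) * q n ^ (J + 1) := by
          rw [Finset.sum_const, Finset.card_powersetCard, nsmul_eq_mul]
      _ ≤ (K n : ℝ) ^ (J + 1) * q n ^ (J + 1) := by
          gcongr
          have h1 : (ch n B).card.choose (J + 1) ≤ K n ^ (J + 1) :=
            (Nat.choose_le_pow _ _).trans (Nat.pow_le_pow_left (hK n B) _)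
          exact_mod_cast h1
      _ = ((K n : ℝ) * q n) ^ (J + 1) := by rw [mul_pow]

theorem phi_start {x : ℕ × Y → ℝ} (h0 : ∀ c, 0 ≤ x c) {t q : ℕ → ℝ} {K : ℕ → ℕ} (N : ℕ)
    (near : ℕ → Finset Y) (hx : ∀ n B, x (n, B) ≤ t n) (hK : ∀ n B, (ch n B).card ≤ K n)
    (hq0 : t 0 ≤ q 0) (hq : ∀ n, t (n + 1) + ((K n : ℝ) * q n) ^ (J + 1) ≤ q (n + 1)) :
    Phi ch J N near x ≤ ∑ n ∈ Finset.range N, ((near n).card : ℝ) * q n := by
  refine Finset.sum_le_sum fun n _ => ?_
  rw [← nsmul_eq_mul, ← Finset.sum_const]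
  exact Finset.sum_le_sum fun B _ => qq_start h0 hx hK hq0 hq n B

end Pool.Agent.ANP.H72
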