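import Pool.Agent.ANP.Stmts

/-!
# ANP, rows SEP and SE2: components of the frozen set
-/

set_option autoImplicit false
set_option linter.unusedSectionVars false

open scoped BigOperators

noncomputable section

namespace Pool.Agent.ANP.H72

open Pool.Agent.ANP

variable {X : Type} [Fintype X] [DecidableEq X]

/-- last exit from `p` -/
theorem last_exit {R : X → X → Prop} (p : X → Prop) {x y : X} (hp : p x)
    (h : Relation.ReflTransGen R x y) :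
    p y ∨ (¬ p y ∧ ∃ u v, p u ∧ R u v ∧ ¬ p v ∧
      Relation.ReflTransGen (fun a b => R a b ∧ ¬ p a ∧ ¬ p b) v y) := by
  induction h with
  | refl => exact Or.inl hp
  | @tail b c _ hbc ih =>
    by_cases hc : p c
    · exact Or.inl hc
    · right
      refine ⟨hc, ?_⟩
      rcases ih with hb | ⟨hb, u, v, hu, huv, hv, hvb⟩
      · exact ⟨b, c, hb, hbc, hc, Relation.ReflTransGen.refl⟩
      · exact ⟨u, v, hu, huv, hv, hvb.tail ⟨hbc, hb, hc⟩⟩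

/-- first exit from `p` -/
theorem first_exit {R : X → X → Prop} (p : X → Prop) {x y : X} (hp : p x)
    (h : Relation.ReflTransGen R x y) :
    (p y ∧ Relation.ReflTransGen (fun a b => R a b ∧ p a ∧ p b) x y) ∨
      ∃ u v, p u ∧ R u v ∧ ¬ p v ∧ Relation.ReflTransGen (fun a b => R a b ∧ p a ∧ p b) x u := by
  induction h with
  | refl => exact Or.inl ⟨hp, Relation.ReflTransGen.refl⟩
  | @tail b c _ hbc ih =>
    rcases ih with ⟨hb, hxb⟩ | h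
    · by_cases hc : p c
      · exact Or.inl ⟨hc, hxb.tail ⟨hbc, hb, hc⟩⟩
      · exact Or.inr ⟨b, c, hb, hbc, hc, hxb⟩
    · exact Or.inr h

/-- a chain which visits at most `|W|` balls of radius `c` with steps of length at most `t` -/
theorem chain_dist {D : X → X → ℕ} (hc : ∀ x y, D x y = D y x)
    (ht : ∀ x y z, D x z ≤ D x y + D y z) (f : X → X) (c t : ℕ) :
    ∀ (k : ℕ) (W : Finset X) (A : X → Prop) (R : X → X → Prop) (x y : X), W.card = k → A x →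
      (∀ z, A z → f z ∈ W ∧ D z (f z) ≤ c) → (∀ u v, R u v → A u ∧ A v ∧ D u v ≤ t) →
      Relation.ReflTransGen R x y → D x y ≤ k * (2 * c + t) := by
  intro k
  induction k with
  | zero =>
    intro W A R x y hW hx hf _ _
    have h1 := (hf x hx).1
    rw [Finset.card_eq_zero] at hW
    rw [hW] at h1
    exact absurd h1 (Finset.notMem_empty _)
  | succ k ih =>
    intro W A R x y hW hx hf hR h
    have hx1 := hf x hx
    have hsame : ∀ z, A z → f z = f x → D x z ≤ 2 * c := by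
      intro z hz hz2
      have h1 := (hf z hz).2
      have h2 := ht x (f x) z
      rw [hz2, hc] at h1
      have h3 := hx1.2
      omega
    have hAend : ∀ z, Relation.ReflTransGen R x z → A z := by
      intro z hz
      rcases hz.cases_tail with h1 | ⟨w, -, hw⟩
      · rw [h1]; exact hx
      · exact (hR w z hw).2.1
    rcases last_exit (fun z => f z = f x) rfl h with h1 | ⟨h1, u, v, hu, huv, hv, hvy⟩
    · have h2 := hsame y (hAend y h) h1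
      calc D x y ≤ 2 * c := h2
        _ ≤ (k + 1) * (2 * c + t) := by nlinarith
    · obtain ⟨hAu, hAv, huv2⟩ := hR u v huv
      have h2 := hsame u hAu hu
      have h3 := ih (W.erase (f x)) (fun z => A z ∧ f z ≠ f x)
        (fun a b => R a b ∧ f a ≠ f x ∧ f b ≠ f x) v y
        (by rw [Finset.card_erase_of_mem hx1.1, hW]; rfl) ⟨hAv, hv⟩
        (fun z hz => ⟨Finset.mem_erase.2 ⟨hz.2, (hf z hz.1).1⟩, (hf z hz.1).2⟩)
        (fun a b hab => ⟨⟨(hR a b hab.1).1, hab.2.1⟩, ⟨(hR a b hab.1).2.1, hab.2.2⟩,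
          (hR a b hab.1).2.2⟩) hvy
      have h4 := ht x u y
      have h5 := ht u v y
      calc D x y ≤ 2 * c + t + k * (2 * c + t) := by omega
        _ = (k + 1) * (2 * c + t) := by ring

/-- the centre of a site of `op` -/
theorem centre {Γ : Geo X} {d : ℕ} (hG : GeoOk Γ d) {m : ℕ} {old op : Finset X}
    (hop : op ⊆ Γ.enl m old 2) (hold : ∀ b ∈ old, Γ.bl m b = b) :
    ∃ f : X → X, ∀ z ∈ op, f z ∈ old ∧ Γ.D z (f z) ≤ 3 * Γ.L m := by
  classical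
  have h1 : ∀ z, ∃ b, z ∈ op → b ∈ old ∧ Γ.D z b ≤ 3 * Γ.L m := by
    intro z
    by_cases hz : z ∈ op
    · have h2 := hop hz
      simp only [Geo.enl, Finset.mem_filter, Finset.mem_univ, true_and] at h2
      obtain ⟨w, hw, hzw⟩ := h2
      refine ⟨Γ.bl m w, fun _ => ⟨hw, ?_⟩⟩
      have h3 := hG.diam m w (Γ.bl m w) (hold _ hw).symm
      have h4 := hG.tri z w (Γ.bl m w)
      omega
    · exact ⟨z, fun h => absurd h hz⟩
  choose f hf using h1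
  exact ⟨f, hf⟩

/-- the old blocks in good blocks near `x` -/
def WW (Γ : Geo X) (m : ℕ) (old bad : Finset X) (x : X) : Finset X :=
  ((({y | Γ.D x y ≤ Γ.L (m + 1)} : Finset X).image (Γ.bl (m + 1))).filter
    fun B => B ∉ bad).biUnion fun B => Γ.sub m old B

theorem ww_card {Γ : Geo X} {d : ℕ} (hG : GeoOk Γ d) {m : ℕ} {old bad : Finset X}
    (hJ : ∀ B, B ∉ bad → (Γ.sub m old B).card ≤ Γ.J) (x : X) :
    (WW Γ m old bad x).card ≤ 3 ^ d * Γ.J := by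
  classical
  unfold WW
  refine (Finset.card_biUnion_le_card_mul _ _ Γ.J ?_).trans ?_
  · intro B hB
    exact hJ B (Finset.mem_filter.1 hB).2
  · exact Nat.mul_le_mul_right _ ((Finset.card_filter_le _ _).trans (hG.meet (m + 1) x))

theorem ww_mem {Γ : Geo X} {m : ℕ} {old bad : Finset X} {x b : X} (hb : b ∈ old)
    (hB : Γ.bl (m + 1) b ∉ bad) (hD : Γ.D x b ≤ Γ.L (m + 1)) : b ∈ WW Γ m old bad x := by
  classical
  unfold WW
  rw [Finset.mem_biUnion]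
  refine ⟨Γ.bl (m + 1) b, ?_, ?_⟩
  · rw [Finset.mem_filter, Finset.mem_image]
    exact ⟨⟨b, by simpa using hD, rfl⟩, hB⟩
  · simp only [Geo.sub, Finset.mem_filter]
    exact ⟨hb, trivial⟩

/-- MAIN: a chain in `op` of sites which are far from the bad blocks stays near its origin -/
theorem main_chain {Γ : Geo X} {d : ℕ} (hG : GeoOk Γ d) (hS : Scl Γ d) {m : ℕ}
    {old bad op : Finset X} (hop : op ⊆ Γ.enl m old 2) (hold : ∀ b ∈ old, Γ.bl m b = b)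
    (hJ : ∀ B, B ∉ bad → (Γ.sub m old B).card ≤ Γ.J) {x y : X} (hx : x ∈ op)
    (far : X → Prop) (hfar : ∀ z, far z → z ∈ op ∧ ∀ w ∈ Γ.enl (m + 1) bad 1,
      Γ.ρ (m + 1) < Γ.D z w) (hxf : far x)
    (h : Relation.ReflTransGen (fun u v => far u ∧ far v ∧ Γ.D u v ≤ 10 * Γ.ρ (m + 1)) x y) :
    1 ≤ Γ.J ∧ Γ.D x y ≤ Γ.L (m + 1) / 8 ∧ ∀ f : X → X,
      (∀ z ∈ op, f z ∈ old ∧ Γ.D z (f z) ≤ 3 * Γ.L m) → f y ∈ WW Γ m old bad x := by
  classical
  obtain ⟨f₀, hf₀⟩ := centre hG hop hold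
  have hrho := hS.rho m
  have hone := hS.one m
  -- the centres are in good blocks
  have hgood : ∀ f : X → X, (∀ z ∈ op, f z ∈ old ∧ Γ.D z (f z) ≤ 3 * Γ.L m) → ∀ z, far z →
      Γ.bl (m + 1) (f z) ∉ bad := by
    intro f hf z hz hbad
    obtain ⟨hz1, hz2⟩ := hfar z hz
    have h1 : f z ∈ Γ.enl (m + 1) bad 1 := by
      simp only [Geo.enl, Finset.mem_filter, Finset.mem_univ, true_and]
      exact ⟨f z, hbad, by rw [hG.self]; exact Nat.zero_le _⟩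
    have h2 := hz2 _ h1
    have h3 := (hf z hz1).2
    omega
  have hJ1 : 1 ≤ Γ.J := by
    have h1 := hJ _ (hgood f₀ hf₀ x hxf)
    have h2 : f₀ x ∈ Γ.sub m old (Γ.bl (m + 1) (f₀ x)) := by
      simp only [Geo.sub, Finset.mem_filter]
      exact ⟨(hf₀ x hx).1, trivial⟩
    have h3 : 0 < (Γ.sub m old (Γ.bl (m + 1) (f₀ x))).card := Finset.card_pos.2 ⟨_, h2⟩
    omega
  have hbig := hS.big m
  have h3d : 1 ≤ 3 ^ d * Γ.J := Nat.one_le_iff_ne_zero.2 (by positivity)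
  have hbig1 : 8 * (5 * Γ.L m + 12 * Γ.ρ (m + 1)) ≤ Γ.L (m + 1) := by
    refine le_trans ?_ hbig
    calc 8 * (5 * Γ.L m + 12 * Γ.ρ (m + 1)) = 8 * (1 * (5 * Γ.L m + 12 * Γ.ρ (m + 1))) := by ring
      _ ≤ 8 * (3 ^ d * Γ.J * (5 * Γ.L m + 12 * Γ.ρ (m + 1))) := by gcongr
  -- membership in `W`
  have hW : ∀ f : X → X, (∀ z ∈ op, f z ∈ old ∧ Γ.D z (f z) ≤ 3 * Γ.L m) → ∀ z, far z →
      Γ.D x z ≤ Γ.L (m + 1) / 8 + 10 * Γ.ρ (m + 1) → f z ∈ WW Γ m old bad x := by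
    intro f hf z hz hD
    refine ww_mem (hf z (hfar z hz).1).1 (hgood f hf z hz) ?_
    have h1 := hG.tri x z (f z)
    have h2 := (hf z (hfar z hz).1).2
    omega
  have hWc := ww_card hG hJ x
  have key : ∀ R : X → X → Prop, (∀ u v, R u v → (far u ∧ Γ.D x u ≤ Γ.L (m + 1) / 8 +
      10 * Γ.ρ (m + 1)) ∧ (far v ∧ Γ.D x v ≤ Γ.L (m + 1) / 8 + 10 * Γ.ρ (m + 1)) ∧
      Γ.D u v ≤ 10 * Γ.ρ (m + 1)) → ∀ v, Relation.ReflTransGen R x v →
      Γ.D x v ≤ Γ.L (m + 1) / 8 := by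
    intro R hR v hv
    have h1 := chain_dist hG.comm hG.tri f₀ (3 * Γ.L m) (10 * Γ.ρ (m + 1))
      (WW Γ m old bad x).card (WW Γ m old bad x)
      (fun z => far z ∧ Γ.D x z ≤ Γ.L (m + 1) / 8 + 10 * Γ.ρ (m + 1)) R x v rfl
      ⟨hxf, by rw [hG.self]; exact Nat.zero_le _⟩
      (fun z hz => ⟨hW f₀ hf₀ z hz.1 hz.2, (hf₀ z (hfar z hz.1).1).2⟩) hR hv
    have h2 : (WW Γ m old bad x).card * (2 * (3 * Γ.L m) + 10 * Γ.ρ (m + 1)) ≤
        3 ^ d * Γ.J * (5 * Γ.L m + 12 * Γ.ρ (m + 1)) := by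
      refine Nat.mul_le_mul hWc ?_
      omega
    omega
  -- the path stays in the ball
  have hball : Γ.D x y ≤ Γ.L (m + 1) / 8 := by
    rcases first_exit (fun z => Γ.D x z ≤ Γ.L (m + 1) / 8) (by rw [hG.self]; exact Nat.zero_le _)
      h with h1 | ⟨u, v, hu, huv, hv, hxu⟩
    · exact h1.1
    · exfalso
      apply hv
      refine key (fun a b => (far a ∧ Γ.D x a ≤ Γ.L (m + 1) / 8 + 10 * Γ.ρ (m + 1)) ∧
        (far b ∧ Γ.D x b ≤ Γ.L (m + 1) / 8 + 10 * Γ.ρ (m + 1)) ∧ Γ.D a b ≤ 10 * Γ.ρ (m + 1))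
        (fun u v huv => huv) v ?_
      refine Relation.ReflTransGen.tail (b := u) (Relation.ReflTransGen.mono
        (fun a b hab => ⟨⟨hab.1.1, by have := hab.2.1; omega⟩,
          ⟨hab.1.2.1, by have := hab.2.2; omega⟩, hab.1.2.2⟩) _ _ hxu) ?_
      · have h2 := hG.tri x u v
        exact ⟨⟨huv.1, by omega⟩, ⟨huv.2.1, by have := huv.2.2; omega⟩, huv.2.2⟩
  have hyf : far y := by
    rcases h.cases_tail with h1 | ⟨w, -, hw⟩
    · rw [h1]; exact hxf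
    · exact hw.2.1
  exact ⟨hJ1, hball, fun f hf => hW f hf y hyf (by omega)⟩

theorem mem_comp {Γ : Geo X} {S : Finset X} {t : ℕ} {x y : X} : y ∈ Γ.comp S t x ↔
    Relation.ReflTransGen (fun u v => u ∈ S ∧ v ∈ S ∧ Γ.D u v ≤ t) x y ∧ y ∈ S := by
  simp only [Geo.comp, Finset.mem_filter, Finset.mem_univ, true_and]

theorem comp_path {Γ : Geo X} {S : Finset X} {t : ℕ} {x y : X} (hx : x ∈ S)
    (h : Relation.ReflTransGen (fun u v => u ∈ S ∧ v ∈ S ∧ Γ.D u v ≤ t) x y) :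
    Relation.ReflTransGen (fun u v => u ∈ Γ.comp S t x ∧ v ∈ Γ.comp S t x ∧ Γ.D u v ≤ t) x y ∧
      y ∈ Γ.comp S t x := by
  induction h with
  | refl => exact ⟨Relation.ReflTransGen.refl, mem_comp.2 ⟨Relation.ReflTransGen.refl, hx⟩⟩
  | @tail b c hab hbc ih =>
    have hc : c ∈ Γ.comp S t x := mem_comp.2 ⟨hab.tail hbc, hbc.2.1⟩
    exact ⟨ih.1.tail ⟨ih.2, hc, hbc.2.2⟩, hc⟩

/-- SEP -/
theorem sep_core {Γ : Geo X} {d : ℕ} (hG : GeoOk Γ d) (hS : Scl Γ d) {m : ℕ}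
    {old bad op : Finset X} {x : X} (hx : x ∈ op) (hop : op ⊆ Γ.enl m old 2)
    (hold : ∀ b ∈ old, Γ.bl m b = b) (hJ : ∀ B, B ∉ bad → (Γ.sub m old B).card ≤ Γ.J)
    (hfar : ∀ y ∈ Γ.comp op (10 * Γ.ρ (m + 1)) x, ∀ z ∈ Γ.enl (m + 1) bad 1,
      Γ.ρ (m + 1) < Γ.D y z) :
    (∀ y ∈ Γ.comp op (10 * Γ.ρ (m + 1)) x, Γ.D x y ≤ Γ.L (m + 1) / 8) ∧
    (Γ.comp op (10 * Γ.ρ (m + 1)) x).card ≤ 3 ^ d * Γ.J * (6 * Γ.L m + 1) ^ d := by
  classical
  obtain ⟨f, hf⟩ := centre hG hop hold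
  have h1 : ∀ y ∈ Γ.comp op (10 * Γ.ρ (m + 1)) x, 1 ≤ Γ.J ∧ Γ.D x y ≤ Γ.L (m + 1) / 8 ∧
      f y ∈ WW Γ m old bad x := by
    intro y hy
    have h2 := comp_path hx (mem_comp.1 hy).1
    obtain ⟨a1, a2, a3⟩ := main_chain hG hS hop hold hJ hx
      (fun z => z ∈ Γ.comp op (10 * Γ.ρ (m + 1)) x)
      (fun z hz => ⟨(mem_comp.1 hz).2, fun w hw => hfar z hz w hw⟩)
      (mem_comp.2 ⟨Relation.ReflTransGen.refl, hx⟩) h2.1
    exact ⟨a1, a2, a3 f hf⟩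
  refine ⟨fun y hy => (h1 y hy).2.1, ?_⟩
  have h2 : Γ.comp op (10 * Γ.ρ (m + 1)) x ⊆ (WW Γ m old bad x).biUnion fun b =>
      ({y | Γ.D b y ≤ 3 * Γ.L m} : Finset X) := by
    intro y hy
    rw [Finset.mem_biUnion]
    refine ⟨f y, (h1 y hy).2.2, ?_⟩
    simp only [Finset.mem_filter, Finset.mem_univ, true_and]
    rw [hG.comm]
    exact (hf y (mem_comp.1 hy).2).2
  refine (Finset.card_le_card h2).trans ?_
  refine (Finset.card_biUnion_le_card_mul _ _ ((6 * Γ.L m + 1) ^ d) ?_).trans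
    (Nat.mul_le_mul_right _ (ww_card hG hJ x))
  intro b _
  have h3 := hG.vol b (3 * Γ.L m)
  have h4 : 2 * (3 * Γ.L m) + 1 = 6 * Γ.L m + 1 := by ring
  rwa [h4] at h3

/-- SE2 -/
theorem se2_core {Γ : Geo X} {d : ℕ} (hG : GeoOk Γ d) (hS : Scl Γ d) (hJ1 : 1 ≤ Γ.J) {m : ℕ}
    {old bad op : Finset X} {x : X} (hx : x ∈ op) (hop : op ⊆ Γ.enl m old 2)
    (hold : ∀ b ∈ old, Γ.bl m b = b) (hJ : ∀ B, B ∉ bad → (Γ.sub m old B).card ≤ Γ.J)
    (hnear : ∃ y ∈ Γ.comp op (10 * Γ.ρ (m + 1)) x, ∃ z ∈ Γ.enl (m + 1) bad 1,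
      Γ.D y z ≤ Γ.ρ (m + 1)) :
    ∀ y, Γ.D x y ≤ 3 * Γ.ρ (m + 1) → y ∈ Γ.enl (m + 1) bad 2 := by
  classical
  have hbig := hS.big m
  have h3d : 1 ≤ 3 ^ d * Γ.J := Nat.one_le_iff_ne_zero.2 (by positivity)
  have hbig1 : 8 * (5 * Γ.L m + 12 * Γ.ρ (m + 1)) ≤ Γ.L (m + 1) := by
    refine le_trans ?_ hbig
    calc 8 * (5 * Γ.L m + 12 * Γ.ρ (m + 1)) = 8 * (1 * (5 * Γ.L m + 12 * Γ.ρ (m + 1))) := by ring
      _ ≤ 8 * (3 ^ d * Γ.J * (5 * Γ.L m + 12 * Γ.ρ (m + 1))) := by gcongr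
  -- a site `v` near the bad blocks and not far from `x`
  have key : ∃ v w : X, Γ.D x v ≤ Γ.L (m + 1) / 8 + 10 * Γ.ρ (m + 1) ∧
      w ∈ Γ.enl (m + 1) bad 1 ∧ Γ.D v w ≤ Γ.ρ (m + 1) := by
    obtain ⟨y₀, hy₀, z₀, hz₀, hyz⟩ := hnear
    obtain ⟨far, hfd⟩ : ∃ far : X → Prop, far = fun z => z ∈ Γ.comp op (10 * Γ.ρ (m + 1)) x ∧
      ∀ w ∈ Γ.enl (m + 1) bad 1, Γ.ρ (m + 1) < Γ.D z w := ⟨_, rfl⟩
    have hfx : ∀ z, far z ↔ z ∈ Γ.comp op (10 * Γ.ρ (m + 1)) x ∧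
      ∀ w ∈ Γ.enl (m + 1) bad 1, Γ.ρ (m + 1) < Γ.D z w := fun z => by rw [hfd]
    have hxc : x ∈ Γ.comp op (10 * Γ.ρ (m + 1)) x :=
      mem_comp.2 ⟨Relation.ReflTransGen.refl, hx⟩
    by_cases hxf : far x
    · have hp := comp_path hx (mem_comp.1 hy₀).1
      have hny : ¬ far y₀ := by
        rw [hfx]
        rintro ⟨-, h⟩
        have := h z₀ hz₀
        omega
      rcases first_exit far hxf hp.1 with h1 | ⟨u, v, hu, huv, hv, hxu⟩
      · exact absurd h1.1 hny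
      · have h2 := main_chain hG hS hop hold hJ hx far
          (fun z hz => ⟨(mem_comp.1 ((hfx z).1 hz).1).2, ((hfx z).1 hz).2⟩) hxf
          (Relation.ReflTransGen.mono (fun a b hab => ⟨hab.2.1, hab.2.2, hab.1.2.2⟩) _ _ hxu)
        have h3 : ∃ w ∈ Γ.enl (m + 1) bad 1, Γ.D v w ≤ Γ.ρ (m + 1) := by
          by_contra hcon
          push Not at hcon
          exact hv ((hfx v).2 ⟨huv.2.1, hcon⟩)
        obtain ⟨w, hw, hvw⟩ := h3
        refine ⟨v, w, ?_, hw, hvw⟩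
        have h4 := hG.tri x u v
        have h5 := h2.2.1
        have h6 := huv.2.2
        omega
    · have h3 : ∃ w ∈ Γ.enl (m + 1) bad 1, Γ.D x w ≤ Γ.ρ (m + 1) := by
        by_contra hcon
        push Not at hcon
        exact hxf ((hfx x).2 ⟨hxc, hcon⟩)
      obtain ⟨w, hw, hvw⟩ := h3
      exact ⟨x, w, by rw [hG.self]; exact Nat.zero_le _, hw, hvw⟩
  obtain ⟨v, w, hxv, hw, hvw⟩ := key
  simp only [Geo.enl, Finset.mem_filter, Finset.mem_univ, true_and] at hw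
  obtain ⟨y', hy', hwy⟩ := hw
  intro y hy
  simp only [Geo.enl, Finset.mem_filter, Finset.mem_univ, true_and]
  refine ⟨y', hy', ?_⟩
  have t1 := hG.tri y x v
  have t2 := hG.tri y v w
  have t3 := hG.tri y w y'
  rw [hG.comm y x] at t1
  omega

end Pool.Agent.ANP.H72
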