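import Pool.Agent.Helper72_ANP.Sep
import Pool.Agent.ANP.Stmts

/-!
# Block P3, rows SEP and SE2
-/

set_option autoImplicit false

namespace Pool.Agent.ANP.H72

open Pool.Agent.ANP

theorem sep : SepStmt := by
  intro X _ _ Γ d hG hS m old bad op x hx hop hold hJ hfar
  exact sep_core hG hS hx hop hold hJ hfar

theorem se2 : Se2Stmt := by
  intro X _ _ Γ d hG hS m old bad op x hx hop hold hJ hnear
  exact se2_core hG hS hS.J1 hx hop hold hJ hnear

end Pool.Agent.ANP.H72
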