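import Pool.Agent.Helper72_ANP.Phi

/-!
# Block P3: the numbers `q_n ≤ L_n^{-A}`
-/

set_option autoImplicit false
set_option linter.unusedSectionVars false

open scoped BigOperators

noncomputable section

namespace Pool.Agent.ANP.H72

/-- `L (n + 1) = L n ^ a`, blocks of the level `n + 1` have at most `(L (n + 1) / L n) ^ d` subblocks,
`J + 1 = 2 a`, and the trials of one block fail with total probability at most `L n ^ (-A) / 2` -/
theorem rec_step {a d A : ℕ} {L : ℝ} (hL : 2 ≤ L) (ha : 2 ≤ a) (hA : 2 * a * d + 1 ≤ A) {K q : ℝ}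
    (hK0 : 0 ≤ K) (hK : K ≤ (L ^ a / L) ^ d) (hq0 : 0 ≤ q) (hq : q * L ^ A ≤ 1) :
    (K * q) ^ (2 * a) * (L ^ a) ^ A ≤ 1 / 2 := by
  have hL0 : 0 < L := by linarith
  have hL1 : 1 ≤ L := by linarith
  -- `K ≤ L ^ ((a - 1) d)`
  have h1 : K ≤ L ^ ((a - 1) * d) := by
    refine hK.trans (le_of_eq ?_)
    have h2 : L ^ a / L = L ^ (a - 1) := by
      rw [div_eq_iff hL0.ne', ← pow_succ]
      congr 1
      omega
    rw [h2, ← pow_mul]
  -- `(K q)^(2a) L^(aA) ≤ L^(2a(a-1)d) q^(2a) L^(aA)`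
  have h3 : K * q * L ^ A ≤ L ^ ((a - 1) * d) := by
    calc K * q * L ^ A = K * (q * L ^ A) := by ring
      _ ≤ L ^ ((a - 1) * d) * 1 := by gcongr
      _ = _ := mul_one _
  have h4 : (K * q * L ^ A) ^ (2 * a) ≤ (L ^ ((a - 1) * d)) ^ (2 * a) :=
    pow_le_pow_left₀ (by positivity) h3 _
  have h5 : (K * q) ^ (2 * a) * (L ^ a) ^ A * L ^ (a * A) = (K * q * L ^ A) ^ (2 * a) := by
    rw [mul_pow _ (L ^ A), ← pow_mul, ← pow_mul, mul_assoc, ← pow_add]
    congr 2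
    ring
  have h6 : (K * q) ^ (2 * a) * (L ^ a) ^ A * L ^ (a * A) ≤ L ^ ((a - 1) * d * (2 * a)) := by
    rw [h5]
    refine h4.trans (le_of_eq ?_)
    rw [← pow_mul]
  have h7 : (a - 1) * d * (2 * a) + 1 ≤ a * A := by
    have e1 : (a - 1) * d * (2 * a) ≤ a * d * (2 * a) := by gcongr; omega
    have e2 : a * (2 * a * d + 1) ≤ a * A := Nat.mul_le_mul_left a hA
    nlinarith
  have h8 : L ^ ((a - 1) * d * (2 * a)) * 2 ≤ L ^ (a * A) := by
    calc L ^ ((a - 1) * d * (2 * a)) * 2 ≤ L ^ ((a - 1) * d * (2 * a)) * L := by gcongr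
      _ = L ^ ((a - 1) * d * (2 * a) + 1) := by rw [pow_succ]
      _ ≤ _ := pow_le_pow_right₀ hL1 h7
  have h9 : 0 < L ^ (a * A) := by positivity
  by_contra hcon
  push Not at hcon
  have h10 : 1 / 2 * L ^ (a * A) < (K * q) ^ (2 * a) * (L ^ a) ^ A * L ^ (a * A) := by gcongr
  linarith

/-- REC: the probabilities of the bad blocks -/
theorem rec_all {a d A : ℕ} {L K q t : ℕ → ℝ} (hL0 : 2 ≤ L 0) (ha : 2 ≤ a)
    (hL : ∀ n, L (n + 1) = L n ^ a) (hA : 2 * a * d + 1 ≤ A) (hK0 : ∀ n, 0 ≤ K n)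
    (hK : ∀ n, K n ≤ (L (n + 1) / L n) ^ d) (ht0 : ∀ n, 0 ≤ t n)
    (ht : ∀ n, t n * L n ^ A ≤ 1 / 2) (hq0 : q 0 = t 0)
    (hq : ∀ n, q (n + 1) = t (n + 1) + (K n * q n) ^ (2 * a)) :
    ∀ n, 2 ≤ L n ∧ 0 ≤ q n ∧ q n * L n ^ A ≤ 1 := by
  intro n
  induction n with
  | zero =>
    refine ⟨hL0, by rw [hq0]; exact ht0 0, ?_⟩
    rw [hq0]
    linarith [ht 0]
  | succ n ih =>
    obtain ⟨i1, i2, i3⟩ := ih
    have h1 : 2 ≤ L (n + 1) := by
      rw [hL]
      calc (2 : ℝ) ≤ L n := i1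
        _ = L n ^ 1 := (pow_one _).symm
        _ ≤ L n ^ a := pow_le_pow_right₀ (by linarith) (by omega)
    refine ⟨h1, ?_, ?_⟩
    · rw [hq]
      exact add_nonneg (ht0 _) (pow_nonneg (mul_nonneg (hK0 n) i2) _)
    · have h2 := rec_step i1 ha hA (hK0 n) (by rw [← hL]; exact hK n) i2 i3
      rw [← hL] at h2
      rw [hq, add_mul]
      linarith [ht (n + 1)]

/-- the sum over the levels: `|near n| ≤ c (L (n + 1) / L n) ^ d` -/
theorem sum_near {a d A : ℕ} {L q : ℕ → ℝ} {c : ℝ} (hc : 0 ≤ c) (ha : 2 ≤ a)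
    (hL : ∀ n, L (n + 1) = L n ^ a) (hA : a * d + 1 ≤ A)
    (hq : ∀ n, 2 ≤ L n ∧ 0 ≤ q n ∧ q n * L n ^ A ≤ 1) (N : ℕ) :
    ∑ n ∈ Finset.range N, c * (L (n + 1) / L n) ^ d * q n ≤ 2 * c / L 0 := by
  -- each term is at most `c / L n ≤ c / (L 0 2 ^ n)`
  have h1 : ∀ n, c * (L (n + 1) / L n) ^ d * q n ≤ c / L n := by
    intro n
    obtain ⟨i1, i2, i3⟩ := hq n
    have hL0 : 0 < L n := by linarith
    have h2 : (L (n + 1) / L n) ^ d ≤ L n ^ (a * d) := by
      rw [hL, pow_mul]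
      gcongr
      exact div_le_self (by positivity) (by linarith)
    have h3 : L n ^ (a * d) * q n * L n ≤ 1 := by
      calc L n ^ (a * d) * q n * L n = q n * L n ^ (a * d + 1) := by rw [pow_succ]; ring
        _ ≤ q n * L n ^ A := by gcongr; linarith
        _ ≤ 1 := i3
    rw [le_div_iff₀ hL0]
    calc c * (L (n + 1) / L n) ^ d * q n * L n = c * ((L (n + 1) / L n) ^ d * q n * L n) := by ring
      _ ≤ c * (L n ^ (a * d) * q n * L n) := by gcongr
      _ ≤ c * 1 := by gcongr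
      _ = c := mul_one c
  have h2 : ∀ n, L 0 * 2 ^ n ≤ L n := by
    intro n
    induction n with
    | zero => simp
    | succ n ih =>
      have i1 := (hq n).1
      have h3 : L n * L n ≤ L (n + 1) := by
        rw [hL, ← sq]
        exact pow_le_pow_right₀ (by linarith) ha
      calc L 0 * 2 ^ (n + 1) = (L 0 * 2 ^ n) * 2 := by ring
        _ ≤ L n * L n := by gcongr
        _ ≤ _ := h3
  have hL00 : 0 < L 0 := by linarith [(hq 0).1]
  have h3 : ∀ n, c * (L (n + 1) / L n) ^ d * q n ≤ c / L 0 * (1 / 2) ^ n := by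
    intro n
    refine (h1 n).trans ?_
    have h4 : 0 < L 0 * 2 ^ n := by positivity
    calc c / L n ≤ c / (L 0 * 2 ^ n) := by gcongr; exact h2 n
      _ = c / L 0 * (1 / 2) ^ n := by
          rw [one_div, inv_pow]
          field_simp
  calc ∑ n ∈ Finset.range N, c * (L (n + 1) / L n) ^ d * q n ≤
      ∑ n ∈ Finset.range N, c / L 0 * (1 / 2) ^ n := Finset.sum_le_sum fun n _ => h3 n
    _ = c / L 0 * ∑ n ∈ Finset.range N, (1 / 2 : ℝ) ^ n := by rw [Finset.mul_sum]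
    _ ≤ c / L 0 * 2 := by
        gcongr
        have h5 : ∀ N : ℕ, ∑ n ∈ Finset.range N, (1 / 2 : ℝ) ^ n = 2 - 2 * (1 / 2) ^ N := by
          intro N
          induction N with
          | zero => simp
          | succ N ih => rw [Finset.sum_range_succ, ih, pow_succ]; ring
        rw [h5]
        have : (0 : ℝ) ≤ (1 / 2) ^ N := by positivity
        linarith
    _ = 2 * c / L 0 := by ring

end Pool.Agent.ANP.H72
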