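import Pool.Agent.ANP.Stmts
import Pool.Agent.Helper72_ANP.Phi

/-!
# ANP, row REC: the tree of independent coins
-/

set_option autoImplicit false
set_option linter.unusedSectionVars false

open scoped BigOperators

noncomputable section

namespace Pool.Agent.ANP.H72

/-! ### functions which are affine in each variable -/

section aff

variable {I : Type} [DecidableEq I]

/-- the values on `ω` are 1, on the rest of `U` they are 0 -/
def xo (U ω : Finset I) (x : I → ℝ) (i : I) : ℝ := if i ∈ ω then 1 else if i ∈ U then 0 else x i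

theorem xo_nonneg {U ω : Finset I} {x : I → ℝ} (h0 : ∀ i, 0 ≤ x i) (i : I) : 0 ≤ xo U ω x i := by
  unfold xo
  split_ifs
  · exact zero_le_one
  · exact le_rfl
  · exact h0 i

/-- the weight of `ω` -/
def wt (U ω : Finset I) (x : I → ℝ) : ℝ := (∏ i ∈ ω, x i) * ∏ i ∈ U \ ω, (1 - x i)

theorem expand {f : (I → ℝ) → ℝ} (hf : ∀ x : I → ℝ, (∀ i, 0 ≤ x i) → ∀ c, ∃ A D : ℝ,
    ∀ t : ℝ, f (Function.update x c t) = A + D * t) {x : I → ℝ} (h0 : ∀ i, 0 ≤ x i) :
    ∀ U : Finset I, f x = ∑ ω ∈ U.powerset, wt U ω x * f (xo U ω x) := by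
  intro U
  induction U using Finset.induction_on with
  | empty =>
    have h1 : xo ∅ ∅ x = x := by
      funext i
      simp [xo]
    rw [Finset.powerset_empty, Finset.sum_singleton, h1]
    unfold wt
    simp
  | insert c U hc ih =>
    rw [Finset.sum_powerset_insert hc, ih, ← Finset.sum_add_distrib]
    refine Finset.sum_congr rfl fun ω hω => ?_
    rw [Finset.mem_powerset] at hω
    have hcω : c ∉ ω := fun h => hc (hω h)
    have e1 : xo (insert c U) ω x = Function.update (xo U ω x) c 0 := by
      funext i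
      by_cases h : i = c
      · subst h
        simp [xo, hcω]
      · simp [xo, h]
    have e2 : xo (insert c U) (insert c ω) x = Function.update (xo U ω x) c 1 := by
      funext i
      by_cases h : i = c
      · subst h
        simp [xo]
      · simp [xo, h]
    have e3 : Function.update (xo U ω x) c (x c) = xo U ω x := by
      funext i
      by_cases h : i = c
      · subst h
        simp [xo, hcω, hc]
      · simp [h]
    have w1 : wt (insert c U) ω x = wt U ω x * (1 - x c) := by
      unfold wt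
      rw [Finset.insert_sdiff_of_notMem _ hcω, Finset.prod_insert (by
        rw [Finset.mem_sdiff]
        exact fun h => hc h.1)]
      ring
    have w2 : wt (insert c U) (insert c ω) x = wt U ω x * x c := by
      unfold wt
      rw [Finset.prod_insert hcω]
      have h1 : insert c U \ insert c ω = U \ ω := by
        ext i
        simp only [Finset.mem_sdiff, Finset.mem_insert, not_or]
        constructor
        · rintro ⟨h1 | h1, h2, h3⟩
          · exact absurd h1 h2
          · exact ⟨h1, h3⟩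
        · rintro ⟨h1, h3⟩
          exact ⟨Or.inr h1, fun h => hc (h ▸ h1), h3⟩
      rw [h1]
      ring
    obtain ⟨A, D, hAD⟩ := hf (xo U ω x) (xo_nonneg h0) c
    have a0 := hAD 0
    have a1 := hAD 1
    have ax := hAD (x c)
    rw [e3] at ax
    rw [e1, e2, w1, w2, a0, a1, ax]
    ring

end aff

variable {X : Type} [Fintype X] [DecidableEq X]

/-- the sub-blocks -/
def cg (Γ : Geo X) (n : ℕ) (B : X) : Finset X := {b | Γ.bl n b = b ∧ Γ.bl (n + 1) b = B}

theorem tree_cg (Γ : Geo X) : Tree (cg Γ) := by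
  intro n B B' b h h'
  simp only [cg, Finset.mem_filter, Finset.mem_univ, true_and] at h h'
  rw [← h.2, ← h'.2]

theorem bad_rep {Γ : Geo X} {d : ℕ} (hG : GeoOk Γ d) {ω : Finset (ℕ × X)} (hω : ω ⊆ Γ.coins) :
    ∀ n, ∀ B ∈ Γ.badS ω n, Γ.bl n B = B := by
  have hco : ∀ n B, (n, B) ∈ ω → Γ.bl n B = B := by
    intro n B h
    have h1 := hω h
    unfold Geo.coins at h1
    exact (Finset.mem_filter.1 h1).2
  intro n
  cases n with
  | zero =>
    intro B hB
    simp only [Geo.badS, Finset.mem_filter, Finset.mem_univ, true_and] at hB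
    exact hco 0 B hB
  | succ n =>
    intro B hB
    simp only [Geo.badS, Finset.mem_filter, Finset.mem_univ, true_and] at hB
    rcases hB with hB | hB
    · exact hco _ B hB
    · obtain ⟨b, hb⟩ := Finset.card_pos.1 (by omega : 0 < (Γ.sub n (Γ.badS ω n) B).card)
      simp only [Geo.sub, Finset.mem_filter] at hb
      rw [← hb.2, hG.idem]

theorem bad_one {Γ : Geo X} {d : ℕ} (hG : GeoOk Γ d) {ω : Finset (ℕ × X)} (hω : ω ⊆ Γ.coins)
    {x : ℕ × X → ℝ} (h0 : ∀ c, 0 ≤ x c) (hx : ∀ c ∈ ω, 1 ≤ x c) :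
    ∀ n, ∀ B ∈ Γ.badS ω n, 1 ≤ QQ (cg Γ) Γ.J x n B := by
  intro n
  induction n with
  | zero =>
    intro B hB
    simp only [Geo.badS, Finset.mem_filter, Finset.mem_univ, true_and] at hB
    exact qq_one_of_coin h0 (hx _ hB)
  | succ n ih =>
    intro B hB
    simp only [Geo.badS, Finset.mem_filter, Finset.mem_univ, true_and] at hB
    rcases hB with hB | hB
    · exact qq_one_of_coin h0 (hx _ hB)
    · refine qq_one_of_children h0 (T := Γ.sub n (Γ.badS ω n) B) ?_ hB ?_
      · intro b hb
        simp only [Geo.sub, Finset.mem_filter] at hb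
        simp only [cg, Finset.mem_filter, Finset.mem_univ, true_and]
        exact ⟨bad_rep hG hω n b hb.1, hb.2⟩
      · intro b hb
        simp only [Geo.sub, Finset.mem_filter] at hb
        exact ih b hb.1

/-- the probability of failure is at most the polynomial -/
theorem phi_le {Γ : Geo X} {d : ℕ} (hG : GeoOk Γ d) (o : X) {x : ℕ × X → ℝ}
    (h0 : ∀ c, 0 ≤ x c) (h1 : ∀ c, x c ≤ 1) : Pool.Agent.ANP.Phi Γ.coins (Γ.fail o) x ≤
      Phi (cg Γ) Γ.J (Γ.N + 1) (Γ.near o) x := by
  classical
  have h2 := expand (f := fun x => Phi (cg Γ) Γ.J (Γ.N + 1) (Γ.near o) x) (by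
    intro x h0 c
    obtain ⟨A, D, -, -, h⟩ := phi_affine (J := Γ.J) (tree_cg Γ) h0 (Γ.N + 1) (Γ.near o) c
    exact ⟨A, D, h⟩) h0 Γ.coins
  rw [h2]
  unfold Pool.Agent.ANP.Phi
  refine Finset.sum_le_sum fun ω hω => ?_
  rw [Finset.mem_powerset] at hω
  have hw : 0 ≤ wt Γ.coins ω x := by
    unfold wt
    exact mul_nonneg (Finset.prod_nonneg fun i _ => h0 i)
      (Finset.prod_nonneg fun i _ => by linarith [h1 i])
  have h3 : (if Γ.fail o ω then (1 : ℝ) else 0) ≤
      Phi (cg Γ) Γ.J (Γ.N + 1) (Γ.near o) (xo Γ.coins ω x) := by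
    split_ifs with hfail
    · obtain ⟨n, hn, B, hB, hBn⟩ := hfail
      refine phi_one (xo_nonneg h0) (by omega : n < Γ.N + 1) hBn ?_
      refine bad_one hG hω (xo_nonneg h0) ?_ n B hB
      intro c hc
      simp [xo, hc]
    · exact phi_nonneg (xo_nonneg h0) _ _
  exact mul_le_mul_of_nonneg_left h3 hw

/-- REC -/
theorem rec : RecStmt := by
  intro X _ _ Γ d hG o π q M hM hπ hq0 hq
  refine (phi_le hG o (x := fun i => π i.1) (fun c => (hπ c.1).1) (fun c => (hπ c.1).2)).trans ?_
  exact phi_start (fun c => (hπ c.1).1) (Γ.N + 1) (Γ.near o) (fun n B => le_rfl)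
    (fun n B => hM n B) hq0 hq

end Pool.Agent.ANP.H72
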